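import Mathlib

namespace Pool.Agent.Results.MP_916daf_an.ThreePoints

open Matrix NormedSpace
open scoped ComplexOrder

/-- the all-ones matrix -/
def J : Matrix (Fin 3) (Fin 3) ℂ := Matrix.of fun _ _ => 1

lemma exp_J (t : ℝ) : exp (-(t : ℂ) • J) = 1 + ((Complex.exp (-3 * t) - 1) / 3) • J := by
  have hJ : ∀ n : ℕ, J ^ (n + 1) = (3 : ℂ) ^ n • J := fun n => by
    induction n with
    | zero => simp
    | succ n ih =>
      rw [pow_succ, ih]; ext i j; simp [J, mul_apply, pow_succ, mul_comm]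
  have h1 := (hasSum_nat_add_iff' 1).mpr (expSeries_div_hasSum_exp (-3 * t : ℂ))
  have h2 := ((h1.div_const 3).smul_const J)
  rw [exp_eq_tsum ℂ]
  refine HasSum.tsum_eq ((hasSum_nat_add_iff' 1).mp ?_)
  rw [← Complex.exp_eq_exp_ℂ] at h2
  simp only [Finset.range_one, Finset.sum_singleton, pow_zero, Nat.factorial_zero, Nat.cast_one,
    div_one, inv_one, one_smul, add_sub_cancel_left] at h2 ⊢
  refine (congrArg (fun f => HasSum f _) (funext fun n => ?_)).mp h2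
  rw [smul_pow, hJ, smul_smul, smul_smul, show (-3 * t : ℂ) = 3 * -t by ring, mul_pow]
  congr 1; ring

lemma apply_J (t : ℝ) (f : Fin 3 → ℂ) (i : Fin 3) : (exp (-(t : ℂ) • J) *ᵥ f) i =
    f i + (((Real.exp (-3 * t) - 1) / 3 : ℝ) : ℂ) * (f 0 + f 1 + f 2) := by
  rw [exp_J, add_mulVec, smul_mulVec, one_mulVec]; simp [J, mulVec, dotProduct, Fin.sum_univ_three]

theorem result : ∃ (n : ℕ) (A : Matrix (Fin n) (Fin n) ℂ), A.PosSemidef ∧
    (∃ M : ℝ, ∀ t : ℝ, 0 ≤ t → ∀ f : Fin n → ℂ, ‖exp (-(t : ℂ) • A) *ᵥ f‖ ≤ M * ‖f‖) ∧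
    ∀ g : Fin n → ℝ, (∀ i, 0 < g i) → ¬ ∀ t : ℝ, 0 ≤ t → ∀ f : Fin n → ℂ,
      ‖fun i => (g i : ℂ) * (exp (-(t : ℂ) • A) *ᵥ f) i‖ ≤ ‖fun i => (g i : ℂ) * f i‖ := by
  refine ⟨3, J, ?_, ⟨2, fun t ht f => ?_⟩, fun g hg h => ?_⟩
  · have := posSemidef_vecMulVec_star_self (fun _ : Fin 3 => (1 : ℂ))
    refine (congrArg PosSemidef ?_).mp this
    ext i j; simp [J, vecMulVec_apply]
  · refine (pi_norm_le_iff_of_nonneg (by positivity)).mpr fun i => ?_
    rw [apply_J]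
    have h1 : Real.exp (-3 * t) ≤ 1 := Real.exp_le_one_iff.mpr (by linarith)
    have h2 := Real.exp_pos (-3 * t)
    have h3 : ‖f 0 + f 1 + f 2‖ ≤ 3 * ‖f‖ := by
      linarith [norm_add₃_le (a := f 0) (b := f 1) (c := f 2), norm_le_pi_norm f 0,
        norm_le_pi_norm f 1, norm_le_pi_norm f 2]
    refine (norm_add_le _ _).trans ?_
    rw [norm_mul, Complex.norm_real, Real.norm_eq_abs, abs_of_nonpos (by linarith)]
    nlinarith [norm_le_pi_norm f i, norm_nonneg (f 0 + f 1 + f 2), norm_nonneg f]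
  · obtain ⟨k, -, hk⟩ := Finset.exists_max_image Finset.univ g Finset.univ_nonempty
    have h1 := h 1 zero_le_one fun i => ((if i = k then (g i)⁻¹ else -(g i)⁻¹ : ℝ) : ℂ)
    have h2 : ‖fun i => (g i : ℂ) * ((if i = k then (g i)⁻¹ else -(g i)⁻¹ : ℝ) : ℂ)‖ ≤ 1 :=
      (pi_norm_le_iff_of_nonneg zero_le_one).mpr fun i => by
        have : (g i : ℂ) ≠ 0 := by exact_mod_cast (hg i).ne'
        split_ifs <;> simp [this]
    have h3 := (norm_le_pi_norm _ k).trans (h1.trans h2)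
    rw [apply_J] at h3
    have h4 : Real.exp (-3 * 1) < 1 := Real.exp_lt_one_iff.mpr (by norm_num)
    generalize Real.exp (-3 * 1) = E at h3 h4
    norm_cast at h3
    have h5 : ∀ i, (g k)⁻¹ ≤ (g i)⁻¹ := fun i => inv_anti₀ (hg i) (hk i (Finset.mem_univ _))
    have h6 : (if 0 = k then (g 0)⁻¹ else -(g 0)⁻¹) + (if 1 = k then (g 1)⁻¹ else -(g 1)⁻¹) +
        (if 2 = k then (g 2)⁻¹ else -(g 2)⁻¹) < 0 := by
      have := inv_pos.mpr (hg 0); have := inv_pos.mpr (hg 1); have := inv_pos.mpr (hg 2)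
      fin_cases k <;> simp at h5 ⊢ <;> linarith [h5 0, h5 1, h5 2]
    rw [if_pos rfl, mul_add, mul_inv_cancel₀ (hg k).ne'] at h3
    have := (le_abs_self _).trans h3
    have h7 := mul_pos (hg k) (mul_pos_of_neg_of_neg (show (E - 1) / 3 < 0 by linarith) h6)
    linarith

end Pool.Agent.Results.MP_916daf_an.ThreePoints
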